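import Pool.Agent.Helper91_PP.Statements

set_option autoImplicit false

/-!
Module H: from an elimination certificate to a tree decomposition.
-/

namespace Helper57_PP

open H91PP SimpleGraph

variable {W : Type}

theorem exists_par (N : W → Finset W) (rk : W → ℕ) : ∃ par : W → Option W,
    (∀ y w, par y = some w → w ∈ N y ∧ ∀ z ∈ N y, rk z ≤ rk w) ∧
    (∀ y, par y = none → N y = ∅) := by
  have h : ∀ y, ∃ p : Option W, (∀ w, p = some w → w ∈ N y ∧ ∀ z ∈ N y, rk z ≤ rk w) ∧
      (p = none → N y = ∅) := by
    intro y
    rcases (N y).eq_empty_or_nonempty with h | h
    · exact ⟨none, by simp, fun _ => h⟩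
    · obtain ⟨w, hw, hw'⟩ := Finset.exists_max_image (N y) rk h
      refine ⟨some w, fun w' hw'' => ?_, by simp⟩
      rw [Option.some.injEq] at hw''
      subst hw''
      exact ⟨hw, hw'⟩
  choose par h1 h2 using h
  exact ⟨par, h1, h2⟩

/-- The tree of a parent function. -/
def parTree (par : W → Option W) : SimpleGraph (Option W) :=
  SimpleGraph.fromEdgeSet (Set.range (fun y => s(some y, par y)))

theorem parTree_isTree [Finite W] (par : W → Option W) (rk : W → ℕ)
    (hpar : ∀ y w, par y = some w → rk w < rk y) : (parTree par).IsTree := by
  classical
  have hne : ∀ y, some y ≠ par y := by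
    intro y h
    exact absurd (hpar y y h.symm) (lt_irrefl _)
  have hadj : ∀ y, (parTree par).Adj (some y) (par y) := by
    intro y
    rw [parTree, SimpleGraph.fromEdgeSet_adj]
    exact ⟨⟨y, rfl⟩, hne y⟩
  rw [SimpleGraph.isTree_iff_connected_and_card]
  constructor
  · have hr : ∀ n, ∀ y, rk y ≤ n → (parTree par).Reachable (some y) none := by
      intro n
      induction n using Nat.strong_induction_on with
      | _ n ih =>
        intro y hy
        rcases hp : par y with _ | w
        · have := hadj y
          rw [hp] at this
          exact this.reachable
        · have h1 := hadj y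
          rw [hp] at h1
          have h2 := hpar y w hp
          exact h1.reachable.trans (ih (rk w) (by omega) w le_rfl)
    have hr' : ∀ i, (parTree par).Reachable i none := by
      intro i
      cases i with
      | none => exact SimpleGraph.Reachable.refl _
      | some y => exact hr _ y le_rfl
    refine ⟨fun i j => (hr' i).trans (hr' j).symm⟩
  · have hcard : Nat.card (parTree par).edgeSet = Nat.card W := by
      refine (Nat.card_congr (Equiv.ofBijective
        (fun y => (⟨s(some y, par y), ?_⟩ : (parTree par).edgeSet)) ⟨?_, ?_⟩)).symm
      · rw [SimpleGraph.mem_edgeSet]; exact hadj y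
      · intro y y' h
        rw [Subtype.mk.injEq, Sym2.eq_iff] at h
        rcases h with ⟨h1, -⟩ | ⟨h1, h2⟩
        · exact Option.some.inj h1
        · have e1 := hpar y' y h1.symm
          have e2 := hpar y y' h2
          omega
      · rintro ⟨e, he⟩
        have he' := he
        rw [parTree, SimpleGraph.edgeSet_fromEdgeSet] at he'
        obtain ⟨⟨y, hy⟩, -⟩ := he'
        exact ⟨y, Subtype.ext hy⟩
    rw [hcard, Finite.card_option]

theorem cert : CertStatement := by
  classical
  intro W _ N rk c hc hrk hcl H hH
  obtain ⟨par, hp1, hp2⟩ := exists_par N rk
  have hadj : ∀ y w, par y = some w → (parTree par).Adj (some y) (some w) := by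
    intro y w h
    rw [parTree, SimpleGraph.fromEdgeSet_adj]
    refine ⟨⟨y, by simp [h]⟩, fun he => ?_⟩
    have := hrk y w (hp1 y w h).1
    rw [Option.some.inj he] at this
    exact absurd this (lt_irrefl _)
  refine ⟨Option W, inferInstance, parTree par,
    fun i => match i with
      | none => ∅
      | some y => insert y (N y), ?_, ?_, ?_, ?_, ?_⟩
  · exact parTree_isTree par rk (fun y w h => hrk y w (hp1 y w h).1)
  · intro v
    exact ⟨some v, Finset.mem_insert_self _ _⟩
  · intro u v huv
    rcases hH u v huv with h | h
    · exact ⟨some v, Finset.mem_insert_of_mem h, Finset.mem_insert_self _ _⟩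
    · exact ⟨some u, Finset.mem_insert_self _ _, Finset.mem_insert_of_mem h⟩
  · intro v
    set s : Set (Option W) := {i | v ∈ (match i with
      | none => (∅ : Finset W)
      | some y => insert y (N y))} with hs
    have hv : some v ∈ s := Finset.mem_insert_self _ _
    have hr : ∀ n, ∀ y, rk y ≤ n → ∀ hy : some y ∈ s,
        ((parTree par).induce s).Reachable ⟨some y, hy⟩ ⟨some v, hv⟩ := by
      intro n
      induction n using Nat.strong_induction_on with
      | _ n ih =>
        intro y hyn hy
        have hy' : v ∈ insert y (N y) := hy
        rcases Finset.mem_insert.mp hy' with rfl | hvN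
        · exact SimpleGraph.Reachable.refl _
        · rcases hp : par y with _ | w
          · rw [hp2 y hp] at hvN
            simp at hvN
          · obtain ⟨hwN, hwmax⟩ := hp1 y w hp
            have hws : some w ∈ s := by
              change v ∈ insert w (N w)
              by_cases hvw : v = w
              · rw [hvw]; exact Finset.mem_insert_self _ _
              · rcases hcl y v hvN w hwN hvw with h | h
                · exact Finset.mem_insert_of_mem h
                · have e1 := hrk v w h
                  have e2 := hwmax v hvN
                  omega
            have h1 : ((parTree par).induce s).Adj ⟨some y, hy⟩ ⟨some w, hws⟩ := hadj y w hp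
            have h2 := hrk y w hwN
            exact h1.reachable.trans (ih (rk w) (by omega) w le_rfl hws)
    have hr' : ∀ i : s, ((parTree par).induce s).Reachable i ⟨some v, hv⟩ := by
      rintro ⟨i, hi⟩
      cases i with
      | none => exact absurd hi (by simp [hs])
      | some y => exact hr _ y le_rfl hi
    intro i j
    exact (hr' i).trans (hr' j).symm
  · intro i
    cases i with
    | none => simp
    | some y => exact (Finset.card_insert_le _ _).trans (Nat.add_le_add_right (hc y) 1)

end Helper57_PP
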