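import Pool.Agent.Helper91_PP.Statements

set_option autoImplicit false

/-!
Module I: short connections from counting vertices.
-/

namespace Helper57_PP

open H91PP TriSphere SimpleGraph

theorem walk_of_isW (S : TriSphere) : ∀ (L : List (S.V × S.E)) (u w : S.V), S.IsW u L w →
    ∃ p : (S.grE Set.univ).Walk u w, p.support = L.map Prod.fst ++ [w] := by
  intro L
  induction L with
  | nil =>
    intro u w h
    have h' : u = w := h
    subst h'
    exact ⟨SimpleGraph.Walk.nil, rfl⟩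
  | cons q L ih =>
    intro u w h
    obtain ⟨hu, v', hj, hW⟩ := h
    obtain ⟨p, hp⟩ := ih v' w hW
    subst hu
    have hadj : (S.grE Set.univ).Adj q.1 v' := ⟨q.2, Set.mem_univ _, hj⟩
    exact ⟨SimpleGraph.Walk.cons hadj p, by rw [SimpleGraph.Walk.support_cons, hp]; rfl⟩

theorem le_add_of_ext {V : Type} {Γ : SimpleGraph V} {B : Set V} {ℓ m δ : V → ℕ} {M : ℕ}
    (hℓ : ∀ v ∈ B, ℓ v ≤ M) (hm : IsExt Γ B ℓ m) (hδ : IsExt Γ B (fun _ => 0) δ) :
    ∀ n x, δ x = n → (∃ b ∈ B, Γ.Reachable b x) → m x ≤ M + n := by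
  intro n
  induction n using Nat.strong_induction_on with
  | _ n ih =>
    intro x hx hr
    by_cases hxB : x ∈ B
    · rw [hm.eq x hxB]
      exact (hℓ x hxB).trans (Nat.le_add_right _ _)
    · obtain ⟨y, hxy, hy⟩ := hδ.par x hr hxB
      have hr' : ∃ b ∈ B, Γ.Reachable b y := by
        obtain ⟨b, hb, hbx⟩ := hr
        exact ⟨b, hb, hbx.trans hxy.reachable⟩
      have h1 := ih (δ y) (by omega) y rfl hr'
      have h2 := hm.lip y x hxy.symm hr'
      omega

theorem exists_level {V : Type} [Finite V] (δ : V → ℕ) (M : ℕ) (hM : 1 ≤ M)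
    (h : 2 * Nat.card V ≤ M * M) :
    ∃ j, M + 1 ≤ j ∧ j ≤ 2 * M ∧ 2 * Set.ncard {v | δ v = j} ≤ M := by
  classical
  have := Fintype.ofFinite V
  by_contra hcon
  push Not at hcon
  have h1 : ∑ j ∈ Finset.Icc (M + 1) (2 * M), (Finset.univ.filter (fun v => δ v = j)).card ≤
      Fintype.card V := by
    rw [← Finset.card_biUnion]
    · exact Finset.card_le_univ _
    · intro i _ j _ hij
      rw [Function.onFun, Finset.disjoint_left]
      intro v hv hv'
      rw [Finset.mem_filter] at hv hv'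
      exact hij (hv.2.symm.trans hv'.2)
  have h2 : ∑ j ∈ Finset.Icc (M + 1) (2 * M), (M + 1) ≤
      ∑ j ∈ Finset.Icc (M + 1) (2 * M), 2 * (Finset.univ.filter (fun v => δ v = j)).card := by
    refine Finset.sum_le_sum (fun j hj => ?_)
    rw [Finset.mem_Icc] at hj
    have := hcon j hj.1 hj.2
    rw [Set.ncard_eq_toFinset_card'] at this
    simp only [Set.toFinset_ofPred] at this
    omega
  rw [← Finset.mul_sum] at h2
  simp only [Finset.sum_const, Nat.card_Icc, smul_eq_mul] at h2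
  rw [Nat.card_eq_fintype_card] at h
  have h3 : 2 * M + 1 - (M + 1) = M := by omega
  rw [h3] at h2
  nlinarith

theorem walk_support_mem (S : TriSphere) (Z : Set S.E) {v w : S.V} (p : (S.grE Z).Walk v w)
    (hv : ∃ e ∈ Z, S.a e = v ∨ S.b e = v) : ∀ x ∈ p.support, ∃ e ∈ Z, S.a e = x ∨ S.b e = x := by
  induction p with
  | nil =>
    intro x hx
    rw [SimpleGraph.Walk.support_nil, List.mem_singleton] at hx
    rw [hx]; exact hv
  | cons h p ih =>
    intro x hx
    rw [SimpleGraph.Walk.support_cons, List.mem_cons] at hx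
    rcases hx with rfl | hx
    · exact hv
    · refine ih ?_ x hx
      obtain ⟨e, he, hj⟩ := h
      rcases hj with hj | hj
      · exact ⟨e, he, Or.inr hj.2⟩
      · exact ⟨e, he, Or.inl hj.1⟩

theorem shortCount : ShortCountStatement := by
  classical
  intro S M hRF hBfs hLev hM hcard
  intro R L u hreg ℓ m hℓ hm x1 x2 hx1 hadj hx1m b1 b2 P1 P2 hb1 hb2 hP1 hP2 _ _ _ _
  have : Finite S.V := S.fV
  obtain ⟨δ, hδ⟩ := hBfs S.V (S.gr R) {v | v ∈ L.map Prod.fst} (fun _ => 0)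
    (fun _ _ _ _ _ => Nat.zero_le _)
  have huB : u ∈ L.map Prod.fst := by
    have h1 := hreg.walk
    have h2 := hreg.ne
    cases L with
    | nil => exact absurd rfl h2
    | cons q L =>
      obtain ⟨hu, -⟩ := h1
      rw [hu]
      simp
  have hr1 : ∃ b ∈ {v | v ∈ L.map Prod.fst}, (S.gr R).Reachable b x1 :=
    ⟨u, huB, hRF.conn R L u hreg x1 hx1⟩
  have hr2 : ∃ b ∈ {v | v ∈ L.map Prod.fst}, (S.gr R).Reachable b x2 :=
    ⟨u, huB, (hRF.conn R L u hreg x1 hx1).trans hadj.reachable⟩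
  have hM1 : m x1 ≤ M + δ x1 := le_add_of_ext hℓ hm hδ _ x1 rfl hr1
  have hδ12 : δ x1 ≤ δ x2 + 1 := hδ.lip x2 x1 hadj.symm hr2
  obtain ⟨j, hj1, hj2, hj3⟩ := exists_level δ M (by omega) hcard
  obtain ⟨Z, hZ1, hZ2, hZ3⟩ := hLev R L u hreg δ hδ j (by omega) x1 hx1 (by omega)
  have hZδ : ∀ v, (∃ e ∈ Z, S.a e = v ∨ S.b e = v) → δ v = j := by
    rintro v ⟨e, he, h | h⟩
    · rw [← h]; exact (hZ1 e he).2.1
    · rw [← h]; exact (hZ1 e he).2.2
  have hfind : ∀ (b x : S.V) (P : List (S.V × S.E)), b ∈ L.map Prod.fst → S.IsW b P x →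
      j < δ x → (∃ q : (S.gr R).Walk x1 x, ∀ v ∈ q.support, j < δ v) →
      ∃ v ∈ P.map Prod.fst, ∃ e ∈ Z, S.a e = v ∨ S.b e = v := by
    intro b x P hb hP hjx hq
    obtain ⟨p, hp⟩ := walk_of_isW S P b x hP
    obtain ⟨v, hv, hvZ⟩ := hZ3 x hq b hb p.reverse
    rw [SimpleGraph.Walk.support_reverse, List.mem_reverse, hp, List.mem_append,
      List.mem_singleton] at hv
    rcases hv with hv | hv
    · exact ⟨v, hv, hvZ⟩
    · have := hZδ v hvZ
      rw [hv] at this
      omega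
  obtain ⟨v1, hv1, hv1Z⟩ := hfind b1 x1 P1 hb1 hP1 (by omega)
    ⟨SimpleGraph.Walk.nil, fun v hv => by
      rw [SimpleGraph.Walk.support_nil, List.mem_singleton] at hv
      rw [hv]; omega⟩
  obtain ⟨v2, hv2, hv2Z⟩ := hfind b2 x2 P2 hb2 hP2 (by omega)
    ⟨SimpleGraph.Walk.cons hadj SimpleGraph.Walk.nil, fun v hv => by
      rw [SimpleGraph.Walk.support_cons, SimpleGraph.Walk.support_nil, List.mem_cons,
        List.mem_singleton] at hv
      rcases hv with hv | hv
      · rw [hv]; omega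
      · rw [hv]; omega⟩
  have hreach : ∀ v, (∃ e ∈ Z, S.a e = v ∨ S.b e = v) →
      ∃ b ∈ {v | v ∈ L.map Prod.fst}, (S.gr R).Reachable b v := by
    intro v hv
    have hle : S.grE Z ≤ S.gr R := by
      intro x y h
      obtain ⟨e, he, hj⟩ := h
      exact ⟨e, (hZ1 e he).1, hj⟩
    obtain ⟨e, he, hev⟩ := hv
    refine ⟨u, huB, hRF.conn R L u hreg v ?_⟩
    have heR := (hZ1 e he).1
    have key : ∀ t, t ∈ R → (∃ i, S.s t i = e) → v ∈ S.VR R := by
      rintro t ht ⟨i, hi⟩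
      rcases S.s_ends t i with ⟨h1, h2⟩ | ⟨h1, h2⟩
      · rw [hi] at h1 h2
        rcases hev with h | h
        · exact ⟨t, ht, i, by rw [← h1, h]⟩
        · exact ⟨t, ht, i + 1, by rw [← h2, h]⟩
      · rw [hi] at h1 h2
        rcases hev with h | h
        · exact ⟨t, ht, i + 1, by rw [← h1, h]⟩
        · exact ⟨t, ht, i, by rw [← h2, h]⟩
    rcases heR with h | h
    · exact key _ h (S.l_s e)
    · exact key _ h (S.r_s e)
  refine ⟨v1, hv1, v2, hv2, ?_, ?_, ?_, ?_⟩
  · intro b hb p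
    have := hδ.ub b hb v1 p
    rw [hZδ v1 hv1Z] at this
    omega
  · have := le_add_of_ext hℓ hm hδ _ v1 rfl (hreach v1 hv1Z)
    rw [hZδ v1 hv1Z] at this
    omega
  · have := le_add_of_ext hℓ hm hδ _ v2 rfl (hreach v2 hv2Z)
    rw [hZδ v2 hv2Z] at this
    omega
  · obtain ⟨p⟩ := hZ2 v1 v2 hv1Z hv2Z
    have hpath := p.toPath.2
    set p' : (S.grE Z).Walk v1 v2 := p.toPath.1 with hp'
    have hnd := hpath.support_nodup
    have hmem := walk_support_mem S Z p' hv1Z
    have hcardle : p'.support.length ≤ Set.ncard {v | δ v = j} := by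
      rw [← List.toFinset_card_of_nodup hnd, ← Set.ncard_coe_finset]
      refine Set.ncard_le_ncard (fun x hx => ?_) (Set.toFinite _)
      rw [Finset.mem_coe, List.mem_toFinset] at hx
      exact hZδ x (hmem x hx)
    rw [SimpleGraph.Walk.length_support] at hcardle
    have hle : S.grE Z ≤ S.gr R := by
      intro x y h
      obtain ⟨e, he, hj⟩ := h
      exact ⟨e, (hZ1 e he).1, hj⟩
    refine ⟨p'.mapLe hle, ?_⟩
    rw [SimpleGraph.Walk.length_mapLe]
    omega

end Helper57_PP
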